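import Mathlib

/-!
# Donaldson series and Seiberg-Witten invariants

`H` is the lattice `H_2(X;ℤ)` of a closed oriented smooth 4-manifold `X` without torsion in
`H_2(X;ℤ)`, identified with `H^2(X;ℤ)` by Poincaré duality; a class `K` in `H^2(X;ℤ)` is also
regarded as the homomorphism `h ↦ K·h`.
-/

namespace Pool.Agent.H839.WI

open PowerSeries

/-- The power series `exp(v t)`. -/
noncomputable def ex (v : ℝ) : PowerSeries ℝ := PowerSeries.mk fun n => v ^ n / n.factorial

/-- The power series `exp(q t²/2)`. -/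
noncomputable def gauss (q : ℝ) : PowerSeries ℝ :=
  PowerSeries.mk fun n => if Even n then (q / 2) ^ (n / 2) / (n / 2).factorial else 0

/-- A 4-manifold `X` (closed, oriented, smooth, `b_1 = 0`, `b^+ > 1` odd, of Donaldson simple type
and of Seiberg-Witten simple type, `H_2(X;ℤ)` without torsion) with its Donaldson and
Seiberg-Witten invariants and their known properties. -/
structure Manifold (H : Type) [AddCommGroup H] where
  /-- the intersection form -/
  Q : H →+ H →+ ℤ
  /-- the Donaldson invariants: `D w m d h = D^w_X(x^m h^d)` -/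
  D : H → ℕ → ℕ → H → ℝ
  /-- Donaldson simple type -/
  simple : ∀ w m d h, D w (m + 2) d h = 4 * D w m d h
  /-- the coefficients `β_K`; the Donaldson basic classes are the `K` with `β_K ≠ 0` -/
  β : (H →+ ℤ) →₀ ℚ
  /-- the Seiberg-Witten invariants; the basic classes are the `K` with `SW(K) ≠ 0` -/
  SW : (H →+ ℤ) →₀ ℤ
  /-- basic classes are characteristic -/
  char_D : ∀ K ∈ β.support, ∀ h, Even (K h + Q h h)
  char_SW : ∀ K ∈ SW.support, ∀ h, Even (K h + Q h h)
  /-- `h` is represented by a smoothly embedded closed surface of genus `g` -/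
  Rep : H → ℕ → Prop
  /-- `b^+ > 0` -/
  positive : ∃ h, 0 < Q h h
  symm : ∀ h h', Q h h' = Q h' h
  /-- every class is represented by an embedded surface (of genus at least one) -/
  rep : ∀ h, ∃ g, 1 ≤ g ∧ Rep h g
  /-- Kronheimer, Mrowka: the adjunction inequality for the Donaldson basic classes -/
  adj_D : ∀ h g, Rep h g → 1 ≤ g → h ≠ 0 → 0 ≤ Q h h →
    ∀ K ∈ β.support, |K h| + Q h h ≤ 2 * g - 2
  /-- the adjunction inequality for the Seiberg-Witten basic classes -/
  adj_SW : ∀ h g, Rep h g → 1 ≤ g → h ≠ 0 → 0 ≤ Q h h →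
    ∀ K ∈ SW.support, |K h| + Q h h ≤ 2 * g - 2
  /-- Kronheimer, Mrowka: the structure theorem
  `D^w((1 + x/2) e^{th}) = exp(t²Q(h)/2) ∑_K β_K (-1)^{(w² + K·w)/2} exp(t K·h)` -/
  structureTheorem : ∀ w h,
    (PowerSeries.mk fun d => (D w 0 d h + D w 1 d h / 2) / d.factorial) =
      gauss (Q h h) * ∑ K ∈ β.support,
        ((β K : ℝ) * (((((Q w w + K w) / 2).negOnePow : ℤˣ) : ℤ) : ℝ)) • ex (K h)

namespace Manifold

variable {H : Type} [AddCommGroup H] (X : Manifold H)

/-- The sign `(-1)^{(w² + K·w)/2}`. -/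
def sign (w : H) (K : H →+ ℤ) : ℝ := ((((X.Q w w + K w) / 2).negOnePow : ℤˣ) : ℤ)

/-- The Donaldson series `D^w_X((1 + x/2) e^{th})` as a power series in `t`: the coefficient of
`t^d` is `D^w_X((1 + x/2) h^d)/d!`. -/
noncomputable def donaldson (w h : H) : PowerSeries ℝ :=
  PowerSeries.mk fun d => (X.D w 0 d h + X.D w 1 d h / 2) / d.factorial

/-- The right hand side of Witten's formula with the constant `c`, as a power series in `t`. -/
noncomputable def witten (c : ℚ) (w h : H) : PowerSeries ℝ :=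
  (c : ℝ) • (gauss (X.Q h h) * ∑ K ∈ X.SW.support, ((X.SW K : ℝ) * X.sign w K) • ex (K h))

/-- Witten's formula with the constant `c`, for all `w` and `h`. -/
def Formula (c : ℚ) : Prop := ∀ w h, X.donaldson w h = X.witten c w h

/-- Witten's formula with the constant `c`, for one `w`, one `h`, and only for the Donaldson
invariants `D^w_X((1 + x/2) h^d)` with `d ≤ a`. -/
def Agree (c : ℚ) (w h : H) (a : ℤ) : Prop :=
  ∀ d : ℕ, (d : ℤ) ≤ a →
    PowerSeries.coeff d (X.donaldson w h) = PowerSeries.coeff d (X.witten c w h)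

/-- `h` separates the basic classes: `K·h ≠ K'·h` for different (Donaldson or Seiberg-Witten)
basic classes `K`, `K'`. -/
def Separates (h : H) : Prop :=
  ∀ K K' : H →+ ℤ, (X.β K ≠ 0 ∨ X.SW K ≠ 0) → (X.β K' ≠ 0 ∨ X.SW K' ≠ 0) → K h = K' h → K = K'

/-- The statement of Q1 for `X`. -/
def Question : Prop := X.β.support = X.SW.support ∧ ∃ c : ℚ, c ≠ 0 ∧ X.Formula c

end Manifold

end Pool.Agent.H839.WI
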