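import Pool.Agent.H839.WI.Defs

namespace Pool.Agent.H839.WI

open PowerSeries

theorem gauss_isUnit (q : ℝ) : IsUnit (gauss q) := by
  rw [PowerSeries.isUnit_iff_constantCoeff]
  have : PowerSeries.constantCoeff (R := ℝ) (gauss q) = 1 := by
    rw [← PowerSeries.coeff_zero_eq_constantCoeff_apply]
    simp [gauss]
  rw [this]
  exact isUnit_one

/-- A combination of exponentials with exponents in `{-a, -a+2, ..., a}` which vanishes to order
`a + 1` is zero. -/
theorem vanish {ι : Type} (T : Finset ι) (e : ι → ℤ) (γ : ι → ℝ) (a : ℕ)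
    (he : ∀ K ∈ T, |e K| ≤ a ∧ Even (e K + a)) (hinj : Set.InjOn e T)
    (h : ∀ d ≤ a, PowerSeries.coeff d (∑ K ∈ T, γ K • ex (e K)) = 0) : ∀ K ∈ T, γ K = 0 := by
  classical
  have h1 : ∀ d ≤ a, ∑ K ∈ T, γ K * (e K : ℝ) ^ d = 0 := fun d hd => by
    have h2 := h d hd
    simp only [map_sum, map_smul, ex, PowerSeries.coeff_mk, smul_eq_mul] at h2
    have h3 : ∑ K ∈ T, γ K * (e K : ℝ) ^ d =
        (∑ K ∈ T, γ K * ((e K : ℝ) ^ d / d.factorial)) * d.factorial := by
      rw [Finset.sum_mul]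
      refine Finset.sum_congr rfl fun K _ => ?_
      have : (d.factorial : ℝ) ≠ 0 := by exact_mod_cast d.factorial_ne_zero
      field_simp
    rw [h3, h2, zero_mul]
  intro K₁ hK₁
  let V : Finset ℤ := (Finset.range (a + 1)).image fun i : ℕ => (a : ℤ) - 2 * i
  have hV : ∀ K ∈ T, e K ∈ V := fun K hK => by
    obtain ⟨h2, h3⟩ := he K hK
    obtain ⟨k, hk⟩ := h3
    have h4 := abs_le.1 h2
    refine Finset.mem_image.2 ⟨(a - k).toNat, Finset.mem_range.2 ?_, ?_⟩
    · omega
    · omega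
  have hcard : V.card ≤ a + 1 := by
    simpa using (Finset.card_image_le (s := Finset.range (a + 1))
      (f := fun i : ℕ => (a : ℤ) - 2 * i))
  let p : Polynomial ℝ := Lagrange.nodal (V.erase (e K₁)) (fun v : ℤ => (v : ℝ))
  have hdeg : p.natDegree < a + 1 := by
    have h2 : p.natDegree = (V.erase (e K₁)).card := Lagrange.natDegree_nodal
    rw [h2, Finset.card_erase_of_mem (hV K₁ hK₁)]
    have : 0 < V.card := Finset.card_pos.2 ⟨_, hV K₁ hK₁⟩
    omega
  have h5 : ∑ K ∈ T, γ K * p.eval (e K : ℝ) = 0 := by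
    have h6 : ∀ K ∈ T, γ K * p.eval (e K : ℝ) =
        ∑ i ∈ Finset.range (a + 1), p.coeff i * (γ K * (e K : ℝ) ^ i) := fun K _ => by
      rw [Polynomial.eval_eq_sum_range' hdeg, Finset.mul_sum]
      refine Finset.sum_congr rfl fun i _ => ?_
      ring
    rw [Finset.sum_congr rfl h6, Finset.sum_comm]
    refine Finset.sum_eq_zero fun i hi => ?_
    rw [← Finset.mul_sum, h1 i (by simpa [Nat.lt_succ_iff] using hi), mul_zero]
  have h7 : ∑ K ∈ T, γ K * p.eval (e K : ℝ) = γ K₁ * p.eval (e K₁ : ℝ) := by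
    refine Finset.sum_eq_single_of_mem K₁ hK₁ fun K hK hne => ?_
    have h8 : e K ∈ V.erase (e K₁) :=
      Finset.mem_erase.2 ⟨fun h9 => hne (hinj hK hK₁ h9), hV K hK⟩
    have h9 : p.eval (e K : ℝ) = 0 :=
      Lagrange.eval_nodal_at_node (v := fun v : ℤ => (v : ℝ)) h8
    rw [h9, mul_zero]
  have h10 : p.eval (e K₁ : ℝ) ≠ 0 := by
    refine Lagrange.eval_nodal_not_at_node fun i hi h9 => ?_
    have : e K₁ = i := by exact_mod_cast h9
    rw [← this] at hi
    simp at hi
  rw [h7] at h5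
  exact (mul_eq_zero.1 h5).resolve_right h10

/-- For all but finitely many `N` the number `N * b + d` is not zero, if `b` or `d` is not. -/
theorem bad_finite (b d : ℤ) (h : b ≠ 0 ∨ d ≠ 0) : {N : ℕ | (N : ℤ) * b + d = 0}.Finite := by
  refine Set.Subsingleton.finite fun N hN M hM => ?_
  simp only [Set.mem_ofPred_eq] at hN hM
  have h1 : ((N : ℤ) - M) * b = 0 := by linarith
  rcases mul_eq_zero.1 h1 with h2 | h2
  · omega
  · rw [h2, mul_zero, zero_add] at hN
    rcases h with h | h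
    · exact absurd h2 h
    · exact absurd hN h

theorem exists_good {H : Type} [AddCommGroup H] (F : Finset (H →+ ℤ)) (x y : H)
    (h : ∀ f ∈ F, f x ≠ 0 ∨ f y ≠ 0) (N₀ : ℕ) :
    ∃ N : ℕ, N₀ ≤ N ∧ ∀ f ∈ F, f (N • x + y) ≠ 0 := by
  classical
  have hfin : (⋃ f ∈ F, {N : ℕ | (N : ℤ) * f x + f y = 0}).Finite :=
    F.finite_toSet.biUnion fun f hf => bad_finite _ _ (h f hf)
  obtain ⟨N, hN⟩ := (hfin.union (Set.finite_lt_nat N₀)).exists_notMem
  simp only [Set.mem_union, Set.mem_iUnion, Set.mem_ofPred_eq, not_or, not_exists, not_lt] at hN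
  refine ⟨N, hN.2, fun f hf h1 => hN.1 f hf ?_⟩
  simpa using h1

theorem exists_nonzero {H : Type} [AddCommGroup H] (F : Finset (H →+ ℤ)) (h : ∀ f ∈ F, f ≠ 0) :
    ∃ u : H, ∀ f ∈ F, f u ≠ 0 := by
  classical
  induction F using Finset.induction_on with
  | empty => exact ⟨0, by simp⟩
  | insert f F hf ih =>
    obtain ⟨u, hu⟩ := ih fun f' hf' => h f' (Finset.mem_insert_of_mem hf')
    obtain ⟨v, hv⟩ : ∃ v, f v ≠ 0 := by
      by_contra h1
      push Not at h1
      exact h f (Finset.mem_insert_self _ _) (AddMonoidHom.ext h1)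
    obtain ⟨N, _, hN⟩ := exists_good (insert f F) u v (fun f' hf' => by
      rcases Finset.mem_insert.1 hf' with h1 | h1
      · exact Or.inr (h1 ▸ hv)
      · exact Or.inl (hu f' h1)) 0
    exact ⟨_, hN⟩

namespace Manifold

variable {H : Type} [AddCommGroup H] (X : Manifold H)

/-- There is a class with positive square which separates the basic classes. -/
theorem exists_separating : ∃ h₀ : H, 0 < X.Q h₀ h₀ ∧ X.Separates h₀ := by
  classical
  let T := X.β.support ∪ X.SW.support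
  let F : Finset (H →+ ℤ) := ((T ×ˢ T).filter fun p => p.1 ≠ p.2).image fun p => p.1 - p.2
  obtain ⟨u, hu⟩ := exists_nonzero F fun f hf => by
    obtain ⟨p, hp, rfl⟩ := Finset.mem_image.1 hf
    exact sub_ne_zero.2 (Finset.mem_filter.1 hp).2
  obtain ⟨x, hx⟩ := X.positive
  obtain ⟨N, hN, hF⟩ := exists_good F x u (fun f hf => Or.inr (hu f hf))
    (2 * (X.Q x u).natAbs + (X.Q u u).natAbs + 1)
  refine ⟨N • x + u, ?_, fun K K' hK hK' h => ?_⟩
  · have h1 : X.Q (N • x + u) (N • x + u) =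
        N * (N * X.Q x x) + 2 * (N * X.Q x u) + X.Q u u := by
      simp only [map_add, map_nsmul, AddMonoidHom.add_apply, AddMonoidHom.coe_smul,
        Pi.smul_apply, nsmul_eq_mul, X.symm u x]
      ring
    rw [h1]
    have h2 : (2 * |X.Q x u| + |X.Q u u| + 1 : ℤ) ≤ N := by
      have : ((2 * (X.Q x u).natAbs + (X.Q u u).natAbs + 1 : ℕ) : ℤ) ≤ N := by exact_mod_cast hN
      push_cast at this
      simpa using this
    have h3 := neg_abs_le (X.Q x u)
    have h4 := neg_abs_le (X.Q u u)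
    have h5 := abs_nonneg (X.Q x u)
    have h6 := abs_nonneg (X.Q u u)
    nlinarith [mul_nonneg (show (0 : ℤ) ≤ N by positivity) (show (0 : ℤ) ≤ X.Q x x - 1 by omega),
      mul_nonneg (show (0 : ℤ) ≤ N by positivity) (show (0 : ℤ) ≤ N - (2 * |X.Q x u| + |X.Q u u| + 1) by omega),
      mul_nonneg (show (0 : ℤ) ≤ N by positivity) (show (0 : ℤ) ≤ X.Q x u + |X.Q x u| by omega),
      mul_nonneg (mul_nonneg (show (0 : ℤ) ≤ N by positivity) (show (0 : ℤ) ≤ (N : ℤ) by positivity)) (show (0 : ℤ) ≤ X.Q x x - 1 by omega)]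
  · by_contra hne
    refine hF (K - K') (Finset.mem_image.2 ⟨(K, K'), Finset.mem_filter.2 ⟨?_, hne⟩, rfl⟩) ?_
    · refine Finset.mem_product.2 ⟨?_, ?_⟩
      · simpa [T] using hK
      · simpa [T] using hK'
    · rw [AddMonoidHom.sub_apply, h, sub_self]

theorem sign_ne_zero (w : H) (K : H →+ ℤ) : X.sign w K ≠ 0 := by
  unfold sign
  have := ((X.Q w w + K w) / 2).negOnePow.ne_zero
  exact_mod_cast this

open Classical in
/-- The difference of the two sides of Witten's formula. -/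
theorem difference (c : ℚ) (w h : H) :
    X.donaldson w h - X.witten c w h = gauss (X.Q h h) *
      ∑ K ∈ X.β.support ∪ X.SW.support,
        (((X.β K : ℝ) - c * X.SW K) * X.sign w K) • ex (K h) := by
  have h1 : X.donaldson w h = gauss (X.Q h h) *
      ∑ K ∈ X.β.support ∪ X.SW.support, ((X.β K : ℝ) * X.sign w K) • ex (K h) := by
    have := X.structureTheorem w h
    unfold donaldson
    rw [this]
    congr 1
    refine Finset.sum_subset Finset.subset_union_left fun K _ hK => ?_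
    have : X.β K = 0 := by simpa using hK
    simp [this]
  have h2 : X.witten c w h = gauss (X.Q h h) *
      ∑ K ∈ X.β.support ∪ X.SW.support, (((c : ℝ) * X.SW K) * X.sign w K) • ex (K h) := by
    unfold witten
    rw [← mul_smul_comm, Finset.smul_sum]
    congr 1
    have h3 : ∀ K, (c : ℝ) • (((X.SW K : ℝ) * X.sign w K) • ex (K h)) =
        (((c : ℝ) * X.SW K) * X.sign w K) • ex (K h) := fun K => by
      rw [smul_smul, mul_assoc]
    simp only [h3]
    refine Finset.sum_subset Finset.subset_union_right fun K _ hK => ?_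
    have : X.SW K = 0 := by simpa using hK
    simp [this]
  rw [h1, h2, ← mul_sub, ← Finset.sum_sub_distrib]
  congr 1
  refine Finset.sum_congr rfl fun K _ => ?_
  rw [← sub_smul, sub_mul]

theorem coeff_zero_of_mul {u S : PowerSeries ℝ} (hu : IsUnit u) (a : ℕ)
    (h : ∀ d ≤ a, PowerSeries.coeff d (u * S) = 0) :
    ∀ d ≤ a, PowerSeries.coeff d S = 0 := by
  have h1 : (PowerSeries.X : PowerSeries ℝ) ^ (a + 1) ∣ u * S :=
    PowerSeries.X_pow_dvd_iff.2 fun d hd => h d (Nat.lt_succ_iff.1 hd)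
  have h2 : (PowerSeries.X : PowerSeries ℝ) ^ (a + 1) ∣ S := (hu.dvd_mul_left).1 h1
  exact fun d hd => PowerSeries.X_pow_dvd_iff.1 h2 d (Nat.lt_succ_iff.2 hd)

/-- The finitely many invariants of one separating class `h₀` determine all. -/
theorem key (w₀ h₀ : H) (g : ℕ) (hrep : X.Rep h₀ g) (hg : 1 ≤ g) (h0 : h₀ ≠ 0)
    (hQ : 0 ≤ X.Q h₀ h₀)
    (hsep : X.Separates h₀) (c : ℚ) (h : X.Agree c w₀ h₀ (2 * g - 2 - X.Q h₀ h₀))
    (K : H →+ ℤ) : X.β K = c * X.SW K := by
  classical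
  set T := X.β.support ∪ X.SW.support with hT
  have memT : ∀ K, K ∈ T ↔ X.β K ≠ 0 ∨ X.SW K ≠ 0 := fun K => by
    simp [hT]
  by_cases hK : K ∈ T
  · have adj : ∀ K ∈ T, |K h₀| + X.Q h₀ h₀ ≤ 2 * g - 2 := fun K hK => by
      rcases Finset.mem_union.1 hK with h1 | h1
      · exact X.adj_D h₀ g hrep hg h0 hQ K h1
      · exact X.adj_SW h₀ g hrep hg h0 hQ K h1
    have par : ∀ K ∈ T, Even (K h₀ + X.Q h₀ h₀) := fun K hK => by
      rcases Finset.mem_union.1 hK with h1 | h1
      · exact X.char_D K h1 h₀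
      · exact X.char_SW K h1 h₀
    obtain ⟨a, ha⟩ : ∃ a : ℕ, (a : ℤ) = 2 * g - 2 - X.Q h₀ h₀ := by
      have h1 := adj K hK
      have h2 := abs_nonneg (K h₀)
      exact ⟨(2 * (g : ℤ) - 2 - X.Q h₀ h₀).toNat, by omega⟩
    have hv := vanish T (fun K => K h₀) (fun K => ((X.β K : ℝ) - c * X.SW K) * X.sign w₀ K) a
      (fun K hK => by
        refine ⟨?_, ?_⟩
        · have := adj K hK
          omega
        · obtain ⟨k, hk⟩ := par K hK
          refine ⟨k + g - 1 - X.Q h₀ h₀, ?_⟩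
          omega)
      (fun K hK K' hK' h1 => hsep K K' ((memT K).1 hK) ((memT K').1 hK') h1)
      (coeff_zero_of_mul (gauss_isUnit (X.Q h₀ h₀)) a fun d hd => by
        rw [← X.difference c w₀ h₀, map_sub, h d (by omega), sub_self])
    have h1 := (mul_eq_zero.1 (hv K hK)).resolve_right (X.sign_ne_zero w₀ K)
    have h2 : (X.β K : ℝ) = ((c * X.SW K : ℚ) : ℝ) := by
      push_cast
      linarith
    exact_mod_cast h2
  · have h1 := (memT K).not.1 hK
    push Not at h1
    rw [h1.1, h1.2]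
    simp

theorem formula_of (c : ℚ) (h : ∀ K, X.β K = c * X.SW K) : X.Formula c := by
  classical
  intro w h'
  have h1 := X.difference c w h'
  have h2 : ∀ K, (((X.β K : ℝ) - c * X.SW K) * X.sign w K) • ex (K h') = 0 := fun K => by
    have : (X.β K : ℝ) = (c : ℝ) * X.SW K := by exact_mod_cast h K
    rw [this, sub_self, zero_mul, zero_smul]
  rw [Finset.sum_eq_zero fun K _ => h2 K, mul_zero] at h1
  exact sub_eq_zero.1 h1

end Manifold

end Pool.Agent.H839.WI
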